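import Pool.Agent.Q83.ZQ.Cor
import Pool.Agent.W558.WT.Asm3
import Pool.Agent.W135.WT.Fam

/-!
MP_3029eb_ag: local uniformization, at all valuations and in all even dimensions, of the local rings
of the quotients of products of surfaces over perfect fields of characteristic `p`

1. by finite abelian groups which act factorwise, if the order of the group of automorphisms
induced on each factor is not divisible by `p ^ 2`; for example of the quotients
`(X_1 × ... × X_n) / (ℤ/N)` by the diagonal action of a cyclic group of order `N = p * m`, `m`
prime to `p`, if the field contains the `m`-th roots of unity;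

2. by finite diagonalizable group schemes `D` which act factorwise, if the order of the image of `D`
in the automorphism group scheme of each factor is not divisible by `p ^ 2`; for example of the
quotients `(X_1 × ... × X_n) / μ_N`, `N = p * m`, `m` prime to `p`. In terms of algebras:
`D = Spec k[Λ]` for a finite abelian group `Λ`, the coordinate rings `A_i` of the `X_i` are
`Λ`-graded, and the coordinate ring of the quotient is the part of degree zero of the tensor product
of the `A_i`.

MP_3029eb_ag.SurfaceProductQuotients of the starting files is the case of the elementary abelian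
`p`-groups. The proof: see MP_19ffc6_ag.AbelianQuotients and MP_b525bf_ag.DiagonalizableQuotients of
the starting files (helper214) for the resolution of singularities of these quotients; the local
rings are uniformized in the charts of the smooth models constructed there.
-/

set_option autoImplicit false

namespace Pool.Agent.Results.MP_3029eb_ag.AbelianQuotientsLU

/-- The algebra `B` with the homomorphisms `j i : A i → B` is the tensor product over `k` of the
algebras `A i`: homomorphisms `f i` from the `A i` to a commutative `k`-algebra `S` correspond to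
homomorphisms `g` from `B` to `S`. So `Spec B` is the product of the `Spec (A i)` over `k`. -/
def IsTensorProduct {k : Type} [Field k] {n : ℕ} {A : Fin n → Type} [∀ i, CommRing (A i)]
    [∀ i, Algebra k (A i)] {B : Type} [CommRing B] [Algebra k B] (j : ∀ i, A i →ₐ[k] B) :
    Prop :=
  ∀ (S : Type) [CommRing S] [Algebra k S] (f : ∀ i, A i →ₐ[k] S),
    ∃! g : B →ₐ[k] S, ∀ i a, g (j i a) = f i a

/-- The coordinate ring `k[H_0 / H_j, ..., H_N / H_j]` of the chart `H_j ≠ 0` of the projective
variety over `k` with the homogeneous coordinates `H_0, ..., H_N` in a field `K`. -/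
def chart (k : Type) {K : Type} [Field k] [Field K] [Algebra k K] {N : ℕ}
    (H : Fin (N + 1) → K) (j : Fin (N + 1)) : Subalgebra k K :=
  Algebra.adjoin k (Set.range fun l => H l / H j)

/-- The quotient of the affine variety `Spec A` by the group `G`, acting by the automorphisms
`ρ g`, is birational to a smooth projective variety. Here `K` is the fraction field of `A`, the
projective variety is given by homogeneous coordinates `H_0, ..., H_N` in `K`: its charts are
smooth over `k`, and its function field, the field of quotients of elements of a chart,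
consists of the invariant elements `a / b` of `K`, `(g a) / (g b) = a / b` for all `g ∈ G`. For
surfaces over perfect fields this condition is always satisfied, by the resolution of
singularities of surfaces. -/
def GroupHasSmoothProjectiveQuotient {k A : Type} (K : Type) [Field k] [CommRing A] [Algebra k A]
    [Field K] [Algebra k K] [Algebra A K] {G : Type} [CommGroup G] (ρ : G →* (A ≃ₐ[k] A)) :
    Prop :=
  ∃ (N : ℕ) (H : Fin (N + 1) → K), (∀ l, H l ≠ 0) ∧
    (∀ j, Algebra.Smooth k (chart k H j)) ∧
    ∀ j (a b : A), b ≠ 0 → ((∀ g, ρ g a * b = a * ρ g b) ↔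
      ∃ u ∈ chart k H j, ∃ v ∈ chart k H j, v ≠ 0 ∧ algebraMap A K a / algebraMap A K b = u / v)

/-- The algebra of invariants of the group `G`. Its spectrum is the quotient of `Spec B` by `G`. -/
def invariants {k B : Type} [Field k] [CommRing B] [Algebra k B] {G : Type} [CommGroup G]
    (ρ : G →* (B ≃ₐ[k] B)) : Subalgebra k B where
  carrier := {b | ∀ g, ρ g b = b}
  mul_mem' := fun ha hb g => by rw [map_mul, ha g, hb g]
  add_mem' := fun ha hb g => by rw [map_add, ha g, hb g]
  algebraMap_mem' := fun c g => AlgEquiv.commutes _ c

section graded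

variable {k A : Type} [Field k] [CommRing A] [Algebra k A] {Λ : Type} [AddCommGroup Λ]
  [DecidableEq Λ]

/-- The subgroup of `Λ` generated by the degrees of the nonzero homogeneous elements of a
`Λ`-graded algebra, the character group of the image of the group scheme `Spec k[Λ]` in the
automorphism group scheme of the algebra. -/
def degreeGroup (𝒜 : Λ → Submodule k A) : AddSubgroup Λ :=
  AddSubgroup.closure {x | ∃ a ∈ 𝒜 x, a ≠ 0}

/-- The part of degree zero of a graded algebra, the algebra of invariants of the group scheme
`Spec k[Λ]`. Its spectrum is the quotient of `Spec A` by the group scheme. -/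
def degreeZero (𝒜 : Λ → Submodule k A) [GradedAlgebra 𝒜] : Subalgebra k A where
  carrier := 𝒜 0
  mul_mem' := fun ha hb => by
    have h := SetLike.mul_mem_graded ha hb
    rwa [add_zero] at h
  add_mem' := fun ha hb => Submodule.add_mem _ ha hb
  algebraMap_mem' := fun c => by
    rw [Algebra.algebraMap_eq_smul_one]
    exact Submodule.smul_mem _ _ (SetLike.one_mem_graded 𝒜)

/-- The quotient of the affine variety `Spec A` by the group scheme `Spec k[Λ]`, that is, the
spectrum of the part of degree zero, is birational to a smooth projective variety. Here `K` is the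
fraction field of `A`, the projective variety is given by homogeneous coordinates
`H_0, ..., H_N` in `K`: its charts are smooth over `k`, and its function field, the field of
quotients of elements of a chart, consists of the quotients of elements of `A` of degree zero. For
surfaces over perfect fields this condition is always satisfied, by the resolution of
singularities of surfaces. -/
def GradedHasSmoothProjectiveQuotient (K : Type) [Field K] [Algebra k K] [Algebra A K]
    (𝒜 : Λ → Submodule k A) : Prop :=
  ∃ (N : ℕ) (H : Fin (N + 1) → K), (∀ l, H l ≠ 0) ∧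
    (∀ j, Algebra.Smooth k (chart k H j)) ∧
    ∀ j (y : K), (∃ a ∈ 𝒜 0, ∃ b ∈ 𝒜 0, b ≠ 0 ∧ y = algebraMap A K a / algebraMap A K b) ↔
      ∃ u ∈ chart k H j, ∃ v ∈ chart k H j, v ≠ 0 ∧ y = u / v

end graded

/-- The local domain `R` admits local uniformization: for every valuation ring `V` of the fraction
field `K` of `R` centred on `R` there is a finitely generated `R`-algebra `B` in `V` whose
localization at the centre `P` of `V` is regular. -/
def AdmitsLocalUniformization (R : Type) [CommRing R] : Prop :=
  ∀ (K : Type) [Field K] [Algebra R K] [IsFractionRing R K] (V : ValuationSubring K),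
    (∀ r : R, algebraMap R K r ∈ V) →
    (∀ r : R, r ∈ nonunits R ↔ V.valuation (algebraMap R K r) < 1) →
    ∃ B : Subalgebra R K, B.FG ∧ (∀ b : B, (b : K) ∈ V) ∧
      ∃ P : Ideal B, ∃ (_ : P.IsPrime),
        (∀ b : B, b ∈ P ↔ V.valuation (b : K) < 1) ∧
        IsRegularLocalRing (Localization.AtPrime P)

/-- All local rings of `Spec C`, the localizations of `C` at its prime ideals, admit local
uniformization. -/
def LocalRingsUniformizable (C : Type) [CommRing C] : Prop :=
  ∀ (q : Ideal C) [q.IsPrime] (R : Type) [CommRing R] [Algebra C R]
    [IsLocalization.AtPrime R q], AdmitsLocalUniformization R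

/-- Let `p` be a prime, `k` a perfect field of characteristic `p`, and let `Spec (A i)`, `i < n`, be
affine surfaces over `k`: the `A i` are domains of finite type and of dimension 2 over `k`. Let
`Spec B` be the product of the surfaces over `k`, assumed to be integral.

1. Let `k` contain a primitive `m`-th root of unity, and let `G` be a finite commutative group with
`g ^ (p * m) = 1` for all `g ∈ G`, which acts on the `A i` by automorphisms over `k` such that the
order of the group of automorphisms of `A i` induced by `G` is not divisible by `p ^ 2`, and such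
that the quotient of `Spec (A i)` by `G` is birational to a smooth projective surface (this is
always the case). Then the local rings of the quotient of `Spec B` by the diagonal action of `G`
admit local uniformization.

2. Let `Λ` be a finite abelian group, and let the `A i` be `Λ`-graded: the diagonalizable group
scheme `D = Spec k[Λ]` acts on the surfaces. Suppose that the order of the subgroup of `Λ`
generated by the degrees of the homogeneous elements of `A i` is not divisible by `p ^ 2`, and that
the quotient of `Spec (A i)` by `D` is birational to a smooth projective surface (this is always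
the case). Let `ℬ` be the grading of `B` such that the homomorphisms `A i → B` preserve the
degrees. Then the local rings of the quotient of `Spec B` by `D`, the spectrum of the part of
degree zero, admit local uniformization. -/
theorem result (p : ℕ) [Fact p.Prime] (k : Type) [Field k] [CharP k p] [PerfectField k] (n : ℕ)
    (A K : Fin n → Type) [∀ i, CommRing (A i)] [∀ i, IsDomain (A i)] [∀ i, Algebra k (A i)]
    [∀ i, Algebra.FiniteType k (A i)] (hA : ∀ i, Algebra.trdeg k (A i) = 2) [∀ i, Field (K i)]
    [∀ i, Algebra k (K i)] [∀ i, Algebra (A i) (K i)] [∀ i, IsScalarTower k (A i) (K i)]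
    [∀ i, IsFractionRing (A i) (K i)] (B : Type) [CommRing B] [IsDomain B] [Algebra k B]
    (j : ∀ i, A i →ₐ[k] B) (hj : IsTensorProduct j) :
    (∀ (m : ℕ) (ζ : k) (G : Type) [CommGroup G] [Finite G] (ρ : ∀ i, G →* (A i ≃ₐ[k] A i))
      (σ : G →* (B ≃ₐ[k] B)), 0 < m → IsPrimitiveRoot ζ m → (∀ g : G, g ^ (p * m) = 1) →
      (∀ i, ¬ p ^ 2 ∣ Nat.card (ρ i).range) →
      (∀ i, GroupHasSmoothProjectiveQuotient (K i) (ρ i)) →
      (∀ g i a, σ g (j i a) = j i (ρ i g a)) →
      LocalRingsUniformizable (invariants σ)) ∧
    ∀ (Λ : Type) [AddCommGroup Λ] [Finite Λ] [DecidableEq Λ] (𝒜 : ∀ i, Λ → Submodule k (A i))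
      [∀ i, GradedAlgebra (𝒜 i)] (ℬ : Λ → Submodule k B) [GradedAlgebra ℬ],
      (∀ i, ¬ p ^ 2 ∣ Nat.card (degreeGroup (𝒜 i))) →
      (∀ i, GradedHasSmoothProjectiveQuotient (K i) (𝒜 i)) →
      (∀ i x, ∀ a ∈ 𝒜 i x, j i a ∈ ℬ x) →
      LocalRingsUniformizable (degreeZero ℬ) := by
  have hj' : Pool.Agent.W558.WT.IsTP j := by
    refine ⟨fun S _ _ f => (hj S f).exists, fun S _ _ g g' h => ?_⟩
    exact (hj S fun i => g.comp (j i)).unique (fun i a => rfl) fun i a => (h i a).symm
  refine ⟨?_, ?_⟩
  · intro m ζ G _ _ ρ σ hm hζ hG hρ hq hσ q _ R _ _ _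
    have hfG : Fintype G := Fintype.ofFinite G
    have hm' : ∀ i, Algebra.trdeg k (Pool.Agent.W558.WT.fixF
        (Set.range (Pool.Agent.TH214.Q.liftG (K i) (ρ i)))) = 2 ∧
        Pool.Agent.W558.HasModel k (Pool.Agent.W558.WT.fixF
          (Set.range (Pool.Agent.TH214.Q.liftG (K i) (ρ i)))) := by
      intro i
      obtain ⟨N, H, h1, h2, h3⟩ := hq i
      exact Pool.Agent.TH214.Q.modG k (A i) (K i) (ρ i) (Pool.Agent.TH214.Q.liftG (K i) (ρ i))
        (fun g a => Pool.Agent.TH214.Q.liftG_app (K i) (ρ i) g a) (hA i) N H h1 h2 h3
    obtain ⟨N, i1, i2, i3, i4, i5, -, hch⟩ := Pool.Agent.Q83.ZQ.quotA_core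
      Pool.Agent.W558.wt_pack Pool.Agent.W558.ws_pack Pool.Agent.W558.wt_fri
      Pool.Agent.W558.wt_art (Pool.Agent.W135.WT.Fam.main Pool.Agent.W558.wa_prod) p k n A K B j
      hj' ρ σ hζ hm hG
      (fun i g g' hg hg' hne => Pool.Agent.TH214.Q.cyc_of_card (ρ i) (hρ i) g g' hg hg' hne)
      (fun i => (hm' i).1) (fun i => (hm' i).2) hσ (invariants σ) (fun b => Iff.rfl)
    exact Pool.Agent.Q83.ZQ.lu_of_charts hch q R
  · intro Λ _ _ _ 𝒜 _ ℬ _ h𝒜 hq hℬ q _ R _ _ _
    have hcl : ∀ i, Pool.Agent.TH214.Q.suppG (𝒜 i) = degreeGroup (𝒜 i) := by
      intro i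
      apply le_antisymm
      · intro x hx
        exact AddSubgroup.subset_closure hx
      · unfold degreeGroup
        rw [AddSubgroup.closure_le]
        intro x hx
        exact hx
    have hm' : ∀ i, Algebra.trdeg k (Pool.Agent.TH214.Q.F0 (𝒜 i) (K i)) = 2 ∧
        Pool.Agent.W558.HasModel k (Pool.Agent.TH214.Q.F0 (𝒜 i) (K i)) := by
      intro i
      obtain ⟨N, H, h1, h2, h3⟩ := hq i
      exact Pool.Agent.TH214.Q.modGr (𝒜 i) (K i) (hA i) N H h1 h2 h3
    obtain ⟨N, i1, i2, i3, i4, i5, -, hch⟩ := Pool.Agent.Q83.ZQ.quotGr_core
      Pool.Agent.W558.wt_art p k n A K B j hj' 𝒜 ℬ hℬ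
      (fun i => by rw [hcl i]; exact h𝒜 i) (fun i => (hm' i).1) (fun i => (hm' i).2)
      (degreeZero ℬ) (fun b => Iff.rfl)
    exact Pool.Agent.Q83.ZQ.lu_of_charts hch q R

end Pool.Agent.Results.MP_3029eb_ag.AbelianQuotientsLU
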