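import Pool.Agent.Results.MP_3029eb_ag.KeyPolynomialTowersLU
import Pool.Agent.Q299.TD.Reached

/-!
MP_3029eb_ag: embedded local uniformization, on local domains essentially of finite type over a
base ring, of all valuations in a class which is closed under composition and under towers without
defect, in all dimensions, ranks and (mixed) characteristics.

Let `R` be a base ring (for example a field, a Dedekind domain of characteristic zero, an
`F`-finite regular ring, or a complete local ring with an `F`-finite residue field). Let
`IsReached R` be the smallest class of valuation rings `V` of fields `K` over `R` which contains

* the trivial valuations, the discrete valuations of arbitrary finite rank (more generally the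
  finite composites of discrete and divergent valuations), the divergent valuations, and the
  valuations which are log uniformizable on all `R`-algebras of finite type in `V` with fraction
  field `K` (by Cossart and Piltant all valuations if `R` is quasi-excellent and these algebras have
  dimension at most `3`);

and which is closed under

* composition: `V` is the composite of `V₁` and a valuation ring `W` of the residue field of `V₁`,
  the class contains `V₁` and `W ∩ F` for every field `F` in the residue field of `V₁` which is
  finitely generated over `R`;
* towers without defect: `K` is reached from a subfield `E`, finitely generated over `R`, by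
  finitely many steps of the following kinds, and the class contains `V ∩ E`: `L ⊂ L(t)` with `t`
  transcendental, such that the value of every polynomial in `t` is determined by a defectless key
  polynomial; finite extensions `L ⊂ L'` without defect.

Then every `V` in the class admits embedded local uniformization on every local domain `S` with
fraction field `K` which is essentially of finite type over `R` and dominated by `V`. (The starting
result `DiscreteValuationsLU` has iterated composites of discrete and divergent valuations only,
and the starting result `KeyPolynomialTowersLU` has one tower over a Dedekind ring or a base for
which log uniformization is assumed.)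
-/

set_option autoImplicit false

universe u

namespace Pool.Agent.Results.MP_3029eb_ag.CompositesAndTowersLU

open Pool.Agent.W418.LU2 Pool.Agent.Q299.TD
open Pool.Agent.Results.MP_3029eb_ag.KeyPolynomialTowersLU (centreRing
  AdmitsEmbeddedLocalUniformization)
open Pool.Agent.Results.MP_5b7a2c_ag.DiscreteValuations (IsBaseRing adjoined)

/-- Let `R` be a base ring: each quotient domain `R / 𝔭` is a field, or is of finite type over a
regular domain `R₁` such that `R₁` is `F`-finite, or `R₁` is formally smooth over a perfect field,
or `R₁` is a subring of `R / 𝔭` and `R / 𝔭` has characteristic zero. Let `K` be a field which is an
`R`-algebra by `ρ`, and let `V` be a valuation ring of `K` in the class `IsReached R`, that is, `V`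
is obtained from trivial, discrete, divergent, or log uniformizable valuations by composition and
by towers of transcendental steps without limit key polynomials and finite extensions without
defect. Let `S` be a local domain with fraction field `K` which is essentially of finite type over
`R` and dominated by `V`, that is, the local ring at the centre of `V` of an `R`-algebra
`A = adjoined ρ G` of finite type in `V` with fraction field `K`. Then `V` admits embedded local
uniformization on `S`. -/
theorem result {R : Type u} [CommRing R] (hR : IsBaseRing R) {K : Type u} [Field K] (ρ : R →+* K)
    (V : ValuationSubring K) (hV : IsReached R ρ V) (G : Set K) (hG : G.Finite) (A : Subring K)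
    (hAG : A = adjoined ρ G) (hA : IsModel V A) (S : Subring K) (hS : S = centreRing V A) :
    AdmitsEmbeddedLocalUniformization V S := by
  have hAV := hA.1
  have h1 : Pool.Agent.H176.DT.SU V A := by
    subst hAG
    have hN : IsNoetherianRing (adjoined ρ G) := noe hR.hj ρ hG
    exact su_of_gp hA (allGP_of_isReached hR.hj ρ V hV G hG hA)
  intro Z hZ hZ0
  obtain ⟨H, hH, hHV, hreg, h2⟩ := Pool.Agent.H176.DT.emb_LU V A hAV h1 Z hZ hZ0
  have h3 : centreRing V (Subring.closure ((S : Set K) ∪ H)) =
      centreRing V (Subring.closure ((A : Set K) ∪ H)) := by
    rw [hS]
    exact Pool.Agent.H176.DT.lo_cl hAV fun z hz => hHV (Subring.subset_closure (Or.inr hz))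
  refine ⟨H, hH, _, rfl, ?_, ?_⟩
  · rw [Subring.closure_le]
    rintro z (hz | hz)
    · rw [hS] at hz
      exact lo_le hAV hz
    · exact hHV (Subring.subset_closure (Or.inr hz))
  · rw [h3]
    obtain ⟨n, x, h4⟩ := h2
    exact ⟨hreg, n, x, h4⟩

end Pool.Agent.Results.MP_3029eb_ag.CompositesAndTowersLU
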