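import Pool.Agent.Q86.TO13
import Pool.Agent.Q86.TO16
import Pool.Agent.H519R3.RS.LUS

/-!
MP_3029eb_ag: relative local uniformization in characteristic `p`, in all dimensions. Let `S` be an
affine variety of any dimension with function field `E`, `X ⊆ S × 𝔸^q` the closure of a family of
affine subspaces of `𝔸^q` over the generic point of `S`, and `Y` the quotient of `X` by group schemes
`{t : t ^ p = c t}` over `S` which act on `X` by translations. We show that a valuation centred on a
local ring of `Y` is uniformizable if its restriction to `E` is uniformizable. So all local rings of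
`X` and `Y` admit local uniformization if all valuations of `E` over `S` are uniformizable, as for
`dim S ≤ 3` by the theorem of Cossart and Piltant.

Proof: the ring of invariants becomes a polynomial ring after a base change to a smooth `D ⊆ E` in
which finitely many functions (minors of the matrix, ...) are comparable with respect to
divisibility. If the valuation ring of `E` is a union of smooth subalgebras `D` there is such a `D`
inside, and the ring of invariants over `D` is integral over the ring of invariants over `S` and `D`.
-/

set_option autoImplicit false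

open MvPolynomial Pool.Agent.H519R3.RS

namespace Pool.Agent.Results.MP_3029eb_ag.FamiliesOverUniformizableBases

section defs

variable {E : Type} [Field E] {q m : ℕ}

/-- The `j`-th coordinate `∑ α_j i u_i + β_j` of the point of the affine subspace with the
parameters `u = (u_1, ..., u_m)`. -/
noncomputable def coordinate (α : Fin q → Fin m → E) (β : Fin q → E) (j : Fin q) :
    MvPolynomial (Fin m) E :=
  ∑ i, C (α j i) * X i + C (β j)

/-- The translation `u ↦ u + T w` in the direction of the vector `w`: the homomorphism
`E[u_1, ..., u_m] → E[u_1, ..., u_m][T]` which maps `u_i` to `u_i + w_i T`. -/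
noncomputable def translate (w : Fin m → E) :
    MvPolynomial (Fin m) E →ₐ[E] Polynomial (MvPolynomial (Fin m) E) :=
  aeval fun j => Polynomial.C (X j) + Polynomial.X * Polynomial.C (C (w j))

/-- The polynomial `f` is invariant under the group scheme `G_c = {t : t ^ p = c t}`, which acts by
`(t, u) ↦ u + t w`: `f (u + T w) = f (u)` in `E[u][T] / (T ^ p - c T)`. -/
def IsInvariant (p : ℕ) (c : E) (w : Fin m → E) (f : MvPolynomial (Fin m) E) : Prop :=
  Polynomial.X ^ p - Polynomial.C (C c) * Polynomial.X ∣ translate w f - Polynomial.C f

/-- The coordinate ring of the closure `X` in `S × 𝔸^q`, `S = Spec R`, of the family of affine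
subspaces `{α u + β}` over the generic point of `S`: the image of `R[y_1, ..., y_q]` in the ring of
functions `E[u_1, ..., u_m]` of the affine subspace. -/
noncomputable def coordinateRing (R : Type) [CommRing R] [Algebra R E]
    (α : Fin q → Fin m → E) (β : Fin q → E) : Subalgebra R (MvPolynomial (Fin m) E) :=
  Algebra.adjoin R (Set.range (coordinate α β))

/-- The ring of the functions on `X` which are invariant under the group schemes `G_{c l}` acting by
`(t, u) ↦ u + t w l`, for all `l`. -/
noncomputable def invariants {R : Type} [CommRing R] [Algebra R E] {r : ℕ} (p : ℕ)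
    (α : Fin q → Fin m → E) (β : Fin q → E) (c : Fin r → R) (w : Fin r → Fin m → E) :
    Subalgebra R (MvPolynomial (Fin m) E) where
  carrier := {f | f ∈ coordinateRing R α β ∧ ∀ l, IsInvariant p (algebraMap R E (c l)) (w l) f}
  mul_mem' := fun hf hg => ⟨Subalgebra.mul_mem _ hf.1 hg.1,
    fun l => (Pool.Agent.Q86.TO.inv p _ (w l)).mul_mem (hf.2 l) (hg.2 l)⟩
  add_mem' := fun hf hg => ⟨Subalgebra.add_mem _ hf.1 hg.1,
    fun l => (Pool.Agent.Q86.TO.inv p _ (w l)).add_mem (hf.2 l) (hg.2 l)⟩
  algebraMap_mem' := fun x => ⟨Subalgebra.algebraMap_mem _ x,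
    fun l => (Pool.Agent.Q86.TO.inv p _ (w l)).algebraMap_mem (algebraMap R E x)⟩

end defs

/-- The valuation ring `W` of the field `E` is uniformizable over `k`: every finite subset of `W` is
contained in a smooth `k`-subalgebra of `E` which is contained in `W`. -/
def IsUniformizable (k : Type) {E : Type} [Field k] [Field E] [Algebra k E]
    (W : ValuationSubring E) : Prop :=
  ∀ Z : Finset E, (∀ z ∈ Z, z ∈ W) →
    ∃ D : Subalgebra k E, Algebra.Smooth k D ∧ (∀ z ∈ Z, z ∈ D) ∧ ∀ x ∈ D, x ∈ W

/-- The valuation with the valuation ring `V` of the field of fractions `K` of the local ring `A` is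
centred on `A`. -/
def IsCentred (A : Type) [CommRing A] [IsLocalRing A] {K : Type} [Field K] [Algebra A K]
    (V : ValuationSubring K) : Prop :=
  (∀ a : A, algebraMap A K a ∈ V) ∧
    ∀ a : A, a ∈ IsLocalRing.maximalIdeal A ↔ V.valuation (algebraMap A K a) < 1

/-- There is a finitely generated `A`-subalgebra of `K` which is contained in `V` and whose
localization at the centre of the valuation is regular. -/
def HasRegularModel (A : Type) [CommRing A] {K : Type} [Field K] [Algebra A K]
    (V : ValuationSubring K) : Prop :=
  ∃ B : Subalgebra A K, B.FG ∧ (∀ b : B, (b : K) ∈ V) ∧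
    ∃ Q : Ideal B, ∃ (_ : Q.IsPrime), (∀ b : B, b ∈ Q ↔ V.valuation (b : K) < 1) ∧
      IsRegularLocalRing (Localization.AtPrime Q)

/-- Let `k` be a field of characteristic `p`, `R` a finitely generated `k`-domain with fraction field
`E`, and `S = Spec R`. Let `α` be a `q × m`-matrix with entries in `E` and linearly independent
columns, `β` a vector in `E ^ q`, and `X ⊆ S × 𝔸^q` the closure of the family of affine subspaces
`{α(s) u + β(s)}`, which is defined over a dense open subset of `S`. Let `c_1, ..., c_r` be elements
of `R` and `w_1, ..., w_r` vectors in `E ^ m` such that `ν_l = α w_l` has entries in `R`, so that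
the group scheme `{t : t ^ p = c_l t}` over `S` acts on `X` by `(t, (s, y)) ↦ (s, y + t ν_l (s))`. Let
`R'` be the local ring of the quotient of `X` by these group schemes (the spectrum of the ring of
invariants; it is `X` itself for `r = 0`) at any prime ideal. Then:
(1) every valuation of the field of fractions of `R'` which is centred on `R'` and whose restriction
to `E` is uniformizable over `k` has a regular model;
(2) if all valuation rings of `E` which contain `R` are uniformizable over `k`, then `R'` admits local
uniformization. -/
theorem result (p : ℕ) [Fact p.Prime] (k R E : Type) [Field k] [CharP k p] [CommRing R] [IsDomain R]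
    [Algebra k R] [Algebra.FiniteType k R] [Field E] [Algebra k E] [Algebra R E]
    [IsScalarTower k R E] [IsFractionRing R E] (q m r : ℕ) (α : Fin q → Fin m → E)
    (hα : ∀ u : Fin m → E, (∀ j, ∑ i, α j i * u i = 0) → u = 0) (β : Fin q → E) (c : Fin r → R)
    (w : Fin r → Fin m → E) (ν : Fin r → Fin q → R)
    (hν : ∀ l j, algebraMap R E (ν l j) = ∑ i, α j i * w l i)
    (P : Ideal (invariants p α β c w)) [P.IsPrime] (R' : Type) [CommRing R'] [IsLocalRing R']
    [Algebra (invariants p α β c w) R'] [IsLocalization.AtPrime R' P] :
    (∀ (K : Type) [Field K] [Algebra R' K] [IsFractionRing R' K] (V : ValuationSubring K),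
      IsCentred R' V → ∀ e : E →+* K,
      (∀ x : R, e (algebraMap R E x) =
        algebraMap R' K (algebraMap (invariants p α β c w) R' (algebraMap R _ x))) →
      IsUniformizable k (V.comap e) → HasRegularModel R' V) ∧
    ((∀ W : ValuationSubring E, (∀ x : R, algebraMap R E x ∈ W) → IsUniformizable k W) →
      AdmitsLU R') := by
  classical
  have hinjR : Function.Injective (algebraMap (invariants p α β c w) R') :=
    IsLocalization.injective R' P.primeCompl_le_nonZeroDivisors
  have hrk : ∃ f, Pool.Agent.Q86.TO.dlt α f ≠ 0 := by
    refine Pool.Agent.Q86.TO.exists_minor_of_span α ?_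
    exact Pool.Agent.Q86.TO.span_of_injective α hα
  have key : ∀ (K : Type) [Field K] [Algebra R' K] [IsFractionRing R' K]
      (V : ValuationSubring K), IsCentred R' V → ∀ e : E →+* K,
      (∀ x : R, e (algebraMap R E x) =
        algebraMap R' K (algebraMap (invariants p α β c w) R' (algebraMap R _ x))) →
      IsUniformizable k (V.comap e) → HasRegularModel R' V := by
    intro K _ _ _ V hV e he hU
    let g0 : invariants p α β c w →+* K := (algebraMap R' K).comp (algebraMap _ R')
    let _ : Algebra k K := (g0.comp (algebraMap k (invariants p α β c w))).toAlgebra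
    let g : invariants p α β c w →ₐ[k] K := { g0 with commutes' := fun r => rfl }
    have hginj : Function.Injective g := (IsFractionRing.injective R' K).comp hinjR
    have hK : ∀ x : K, ∃ a b : invariants p α β c w, b ≠ 0 ∧ x = g a / g b := by
      intro x
      obtain ⟨r1, r2, hr2, rfl⟩ := IsFractionRing.div_surjective (A := R') x
      obtain ⟨⟨a1, s1⟩, h1⟩ := IsLocalization.surj P.primeCompl r1
      obtain ⟨⟨a2, s2⟩, h2⟩ := IsLocalization.surj P.primeCompl r2
      have hs1 : g s1 ≠ 0 := fun h => by
        have : (s1 : invariants p α β c w) = 0 := hginj (h.trans (map_zero g).symm)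
        exact s1.2 (by rw [this]; exact P.zero_mem)
      have hs2 : g s2 ≠ 0 := fun h => by
        have : (s2 : invariants p α β c w) = 0 := hginj (h.trans (map_zero g).symm)
        exact s2.2 (by rw [this]; exact P.zero_mem)
      have e1 : algebraMap R' K r1 = g a1 / g s1 := by
        rw [eq_div_iff hs1]
        change _ * algebraMap R' K (algebraMap _ R' _) = algebraMap R' K (algebraMap _ R' _)
        rw [← map_mul, h1]
      have e2 : algebraMap R' K r2 = g a2 / g s2 := by
        rw [eq_div_iff hs2]
        change _ * algebraMap R' K (algebraMap _ R' _) = algebraMap R' K (algebraMap _ R' _)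
        rw [← map_mul, h2]
      have hr2' : algebraMap R' K r2 ≠ 0 :=
        (map_ne_zero_iff _ (IsFractionRing.injective R' K)).2 (nonZeroDivisors.ne_zero hr2)
      have ha2 : a2 ≠ 0 := by
        rintro rfl
        apply hr2'
        rw [e2, map_zero, zero_div]
      refine ⟨a1 * s2, a2 * s1, mul_ne_zero ha2 (fun h => hs1 (by rw [h, map_zero])), ?_⟩
      have ha2' : g a2 ≠ 0 := fun h => ha2 (hginj (h.trans (map_zero g).symm))
      rw [e1, e2, map_mul, map_mul]
      field_simp
    obtain ⟨D, hD1, hD2, hD3⟩ := Pool.Agent.Q86.TO.mainLLU (p := p) (k := k) (R := R) (E := E)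
      α β hrk (List.ofFn fun l => (c l, w l)) (by
        intro it hit j
        obtain ⟨l, rfl⟩ := (List.mem_ofFn' _ _).1 hit
        exact ⟨ν l j, hν l j⟩) (invariants p α β c w) (by
        intro x
        constructor
        · rintro ⟨h2, h3⟩
          refine ⟨h2, fun it hit => ?_⟩
          obtain ⟨l, rfl⟩ := (List.mem_ofFn' _ _).1 hit
          exact h3 l
        · rintro ⟨h2, h3⟩
          exact ⟨h2, fun l => h3 (c l, w l) ((List.mem_ofFn' _ _).2 ⟨l, rfl⟩)⟩)
      g hginj hK V (fun a => hV.1 _) e (fun x => (he x).symm) hU
    refine lu_local P g (fun a => rfl) V hV.1 ?_ D hD1 hD2 hD3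
    intro a ha hlt
    have h3 := (hV.2 (algebraMap _ R' a)).2 hlt
    exact h3 (IsLocalization.map_units R' (⟨a, ha⟩ : P.primeCompl))
  refine ⟨key, fun hW => ?_⟩
  intro K _ _ _ V hV hVm
  have hinj : Function.Injective ((algebraMap R' K).comp ((algebraMap _ R').comp
      (algebraMap R (invariants p α β c w)))) := by
    refine (IsFractionRing.injective R' K).comp (hinjR.comp ?_)
    intro x y hxy
    have h1 : (C (algebraMap R E x) : MvPolynomial (Fin m) E) = C (algebraMap R E y) :=
      congrArg Subtype.val hxy
    exact IsFractionRing.injective R E (C_injective _ _ h1)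
  have he : ∀ x : R, (IsFractionRing.lift hinj : E →+* K) (algebraMap R E x) =
      algebraMap R' K (algebraMap (invariants p α β c w) R' (algebraMap R _ x)) := fun x =>
    IsFractionRing.lift_algebraMap hinj x
  refine key K V ⟨hV, hVm⟩ (IsFractionRing.lift hinj) he (hW _ fun x => ?_)
  rw [ValuationSubring.mem_comap, he]
  exact hV _

end Pool.Agent.Results.MP_3029eb_ag.FamiliesOverUniformizableBases
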