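import Pool.Agent.TH188.VQ.Fin
import Pool.Agent.Q83.ZQ.Cor

/-!
MP_3029eb_ag: local uniformization, at all valuations and in all even dimensions, of the local rings
of the quotients of products of surfaces over a perfect field of characteristic `p` by vector
fields. Let `D i` be a vector field on the surface `X i` with `(D i) ^ p = 0` for all `i`, or
`(D i) ^ p = (μ i) ^ (p - 1) * D i`, `μ i ≠ 0` in `k`, for all `i`. The local rings of the quotient
of the product of the `X i` by any set of linear combinations `∑ i, v i * D i` with coefficients in
`k` admit local uniformization; for example the local rings of the quotient of affine space of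
dimension `2 n` by `D 1 + ... + D n` for vector fields `D i` on the plane. These are the quotients
of `X 1 × ... × X n` by subgroup schemes of `(α_p) ^ n` and `(μ_p) ^ n` for actions of `α_p`, `μ_p`
on the surfaces.

The proof: see MP_19ffc6_ag.SurfaceVectorFieldQuotients of the starting files (helper188) for the
resolution of singularities of these quotients; the local rings are uniformized in the charts of the
smooth models constructed there.
-/

set_option autoImplicit false

open TensorProduct

namespace Pool.Agent.Results.MP_3029eb_ag.VectorFieldQuotientsLU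

/-- The local domain `R` admits local uniformization: for every valuation ring `V` of the fraction
field `K` of `R` centred on `R` there is a finitely generated `R`-algebra `B` in `V` whose
localization at the centre `P` of `V` is regular. -/
def AdmitsLocalUniformization (R : Type) [CommRing R] : Prop :=
  ∀ (K : Type) [Field K] [Algebra R K] [IsFractionRing R K] (V : ValuationSubring K),
    (∀ r : R, algebraMap R K r ∈ V) →
    (∀ r : R, r ∈ nonunits R ↔ V.valuation (algebraMap R K r) < 1) →
    ∃ B : Subalgebra R K, B.FG ∧ (∀ b : B, (b : K) ∈ V) ∧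
      ∃ P : Ideal B, ∃ (_ : P.IsPrime),
        (∀ b : B, b ∈ P ↔ V.valuation (b : K) < 1) ∧
        IsRegularLocalRing (Localization.AtPrime P)

/-- All local rings of `Spec C`, the localizations of `C` at its prime ideals, admit local
uniformization. -/
def LocalRingsUniformizable (C : Type) [CommRing C] : Prop :=
  ∀ (q : Ideal C) [q.IsPrime] (R : Type) [CommRing R] [Algebra C R]
    [IsLocalization.AtPrime R q], AdmitsLocalUniformization R

/-- The field `E` is the function field of a smooth projective variety over `k`, given by
homogeneous coordinates `H 0, ..., H N` in `E`: the coordinate rings `k[H 0 / H i, ..., H N / H i]`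
of the charts are smooth over `k` and have the fraction field `E`. For function fields of surfaces
over perfect fields this condition is always satisfied, by the resolution of singularities of
surfaces. -/
def HasSmoothProjectiveModel (k E : Type) [Field k] [Field E] [Algebra k E] : Prop :=
  ∃ (N : ℕ) (H : Fin (N + 1) → E), (∀ i, H i ≠ 0) ∧ ∀ i,
    Algebra.Smooth k (Algebra.adjoin k (Set.range fun j => H j / H i)) ∧
    IsFractionRing (Algebra.adjoin k (Set.range fun j => H j / H i)) E

/-- Either `(D i) ^ p = 0` on `S i` for all `i`, or there are elements `μ i ≠ 0` of `k` such that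
`(D i) ^ p = μ i ^ (p - 1) * D i` on `S i` for all `i`. -/
def PowerCondition (p : ℕ) (k : Type) [Field k] {n : ℕ} {M : Fin n → Type}
    [∀ i, AddCommGroup (M i)] [∀ i, Module k (M i)] (S : ∀ i, Set (M i)) (D : ∀ i, M i → M i) :
    Prop :=
  (∀ i, ∀ x ∈ S i, (D i)^[p] x = 0) ∨
    ∃ μ : Fin n → k, (∀ i, μ i ≠ 0) ∧ ∀ i, ∀ x ∈ S i, (D i)^[p] x = μ i ^ (p - 1) • D i x

section

variable {k K : Type} [Field k] [Field K] [Algebra k K] {n : ℕ}
  (E : Fin n → IntermediateField k K) (D : Fin n → Derivation k K K)

/-- The subfields `E 1, ..., E n` of `K` are linearly disjoint over `k`: the homomorphism from their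
tensor product over `k` to `K`, which maps `x 1 ⊗ ... ⊗ x n` to `x 1 * ... * x n`, is
injective. -/
def LinearlyDisjoint : Prop :=
  Function.Injective (PiTensorProduct.lift ((MultilinearMap.mkPiAlgebra k (Fin n) K).compLinearMap
    fun i => (E i).val.toLinearMap))

/-- The field `K` is generated by its linearly disjoint subfields `E 1, ..., E n`, which are
function fields of smooth projective surfaces over `k`. -/
structure IsProductOfSurfaces : Prop where
  surface : ∀ i, Algebra.trdeg k (E i) = 2 ∧ HasSmoothProjectiveModel k (E i)
  disjoint : LinearlyDisjoint E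
  generate : IntermediateField.adjoin k (⋃ i, (E i : Set K)) = ⊤

/-- The derivation `D i` of `K` maps `E i` to `E i` and vanishes on the `E l`, `l ≠ i`, and the
`p`-th powers of the `D i` on the `E i` satisfy the `PowerCondition`. -/
structure AreFieldsOnFactors (p : ℕ) : Prop where
  maps : ∀ i, ∀ x ∈ E i, D i x ∈ E i
  vanish : ∀ i l, i ≠ l → ∀ x ∈ E l, D i x = 0
  power : PowerCondition p k (M := fun _ => K) (fun i => E i) (fun i => D i)

/-- The ring `C` is contained in `K`, its field of fractions is the field of common constants of the
derivations `∑ i, v i * D i`, `v ∈ V`, and it is integral over the subalgebra generated by finitely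
many elements, each of which is a product of elements `s i` of the `E i` with `D i (s i) = 0`. -/
structure IsQuotientRing (V : Set (Fin n → k)) (C : Type) [CommRing C] [Algebra k C]
    [Algebra C K] : Prop where
  injective : Function.Injective (algebraMap C K)
  fractions : ∀ x : K, (∀ v ∈ V, ∑ i, v i • D i x = 0) ↔
    ∃ a b : C, algebraMap C K b ≠ 0 ∧ x * algebraMap C K b = algebraMap C K a
  integral : ∃ S : Finset C, (∀ a ∈ S, ∃ s : Fin n → K, (∀ i, s i ∈ E i ∧ D i (s i) = 0) ∧
    algebraMap C K a = ∏ i, s i) ∧ ∀ a : C, IsIntegral (Algebra.adjoin k (S : Set C)) a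

end

section

variable {k : Type} [Field k] {n : ℕ} {A : Fin n → Type} [∀ i, CommRing (A i)]
  [∀ i, Algebra k (A i)]

/-- The sum `∑ i, id ⊗ … ⊗ D i ⊗ … ⊗ id` of derivations `D i` of the algebras `A i`, as an
endomorphism of `⨂ A_i`. -/
noncomputable def diagField (D : ∀ i, Derivation k (A i) (A i)) :
    (⨂[k] i, A i) →ₗ[k] (⨂[k] i, A i) :=
  ∑ i, PiTensorProduct.map
    (Function.update (fun l => (LinearMap.id : A l →ₗ[k] A l)) i (D i : A i →ₗ[k] A i))

theorem exists_derivation (D : ∀ i, Derivation k (A i) (A i)) :
    ∃ E : Derivation k (⨂[k] i, A i) (⨂[k] i, A i), ∀ f, E f = diagField D f := by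
  obtain ⟨E, hE⟩ := Pool.Agent.H920R2.exists_der_coprod
    (Pool.Agent.H920R2.isCoprod_pi (k := k) (A := A)) D
  exact ⟨E, fun f => Pool.Agent.TH188.VQ.diagF_eq D E hE f⟩

/-- The set of common constants of the vector fields `∑ i, v i * D i`, `v ∈ V`. -/
def constantSet (D : ∀ i, Derivation k (A i) (A i)) (V : Set (Fin n → k)) :
    Set (⨂[k] i, A i) :=
  {f | ∀ v ∈ V, diagField (fun i => v i • D i) f = 0}

theorem mul_mem_constantSet (D : ∀ i, Derivation k (A i) (A i)) (V : Set (Fin n → k))
    {f g : ⨂[k] i, A i} (hf : f ∈ constantSet D V) (hg : g ∈ constantSet D V) :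
    f * g ∈ constantSet D V := by
  intro v hv
  obtain ⟨E, hE⟩ := exists_derivation fun i => v i • D i
  rw [← hE, Derivation.leibniz, hE, hE, hf v hv, hg v hv, smul_zero, smul_zero, add_zero]

theorem add_mem_constantSet (D : ∀ i, Derivation k (A i) (A i)) (V : Set (Fin n → k))
    {f g : ⨂[k] i, A i} (hf : f ∈ constantSet D V) (hg : g ∈ constantSet D V) :
    f + g ∈ constantSet D V := by
  intro v hv
  rw [map_add, hf v hv, hg v hv, add_zero]

theorem algebraMap_mem_constantSet (D : ∀ i, Derivation k (A i) (A i)) (V : Set (Fin n → k))
    (r : k) : algebraMap k (⨂[k] i, A i) r ∈ constantSet D V := by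
  intro v _
  obtain ⟨E, hE⟩ := exists_derivation fun i => v i • D i
  rw [← hE, Derivation.map_algebraMap]

/-- The algebra of common constants of the vector fields `∑ i, v i * D i`, `v ∈ V`. -/
noncomputable def constants (D : ∀ i, Derivation k (A i) (A i)) (V : Set (Fin n → k)) :
    Subalgebra k (⨂[k] i, A i) where
  carrier := constantSet D V
  mul_mem' := mul_mem_constantSet D V
  add_mem' := add_mem_constantSet D V
  algebraMap_mem' := algebraMap_mem_constantSet D V

end

/-- Let `k` be a perfect field of characteristic `p`, and let `V` be a set of vectors in `k ^ n`.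

1. Let the field extension `K` of `k` be generated by linearly disjoint subfields `E 1, ..., E n`,
which are function fields of smooth projective surfaces over `k`. Let `D i` be derivations of `K`
over `k` which map `E i` to `E i` and vanish on the `E l`, `l ≠ i`. Suppose that `(D i) ^ p = 0` on
`E i` for all `i`, or that there are elements `μ i ≠ 0` of `k` with
`(D i) ^ p = μ i ^ (p - 1) * D i` on `E i` for all `i`. Let `C` be a finitely generated `k`-algebra
contained in `K` whose field of fractions is the field of common constants of the derivations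
`∑ i, v i * D i`, `v ∈ V`, and which is integral over the subalgebra generated by finitely many
elements each of which is a product of elements `s i` of the `E i` with `D i (s i) = 0`. Then all
local rings of `Spec C` admit local uniformization.

2. Let `A 1, ..., A n` be finitely generated `k`-algebras without zero divisors, whose tensor
product has no zero divisors, and whose fields of fractions are function fields of smooth
projective surfaces over `k` or rational function fields in two variables. Let `D i` be derivations
of the `A i` over `k` with `(D i) ^ p = 0` for all `i`, or with `(D i) ^ p = μ i ^ (p - 1) * D i`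
for all `i`, where the `μ i ≠ 0` are elements of `k`. Then all local rings of the quotient of the
product of the surfaces `Spec (A i)` by the vector fields `∑ i, v i * D i`, `v ∈ V`, the spectrum of
the ring of common constants, admit local uniformization. -/
theorem result (p : ℕ) [Fact p.Prime] (k : Type) [Field k] [PerfectField k] [CharP k p] (n : ℕ)
    (V : Set (Fin n → k)) :
    (∀ (K : Type) [Field K] [Algebra k K] (E : Fin n → IntermediateField k K)
      (D : Fin n → Derivation k K K) (C : Type) [CommRing C] [IsDomain C] [Algebra k C]
      [Algebra.FiniteType k C] [Algebra C K] [IsScalarTower k C K],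
      IsProductOfSurfaces E → AreFieldsOnFactors E D p → IsQuotientRing E D V C →
      LocalRingsUniformizable C) ∧
    ∀ (A : Fin n → Type) [∀ i, CommRing (A i)] [∀ i, IsDomain (A i)] [∀ i, Algebra k (A i)]
      [∀ i, Algebra.FiniteType k (A i)] [IsDomain (⨂[k] i, A i)]
      (D : ∀ i, Derivation k (A i) (A i)),
      (∀ i, (Algebra.trdeg k (FractionRing (A i)) = 2 ∧
          HasSmoothProjectiveModel k (FractionRing (A i))) ∨
        Nonempty (FractionRing (A i) ≃ₐ[k] FractionRing (MvPolynomial (Fin 2) k))) →
      PowerCondition p k (fun _ => Set.univ) (fun i => D i) →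
      LocalRingsUniformizable (constants D V) := by
  have hmod : ∀ (E : Type) [Field E] [Algebra k E], HasSmoothProjectiveModel k E →
      Pool.Agent.W558.HasModel k E := by
    rintro E _ _ ⟨N, H, h0, h1⟩
    refine ⟨N, H, h0, fun i => ⟨(h1 i).1, fun x => ?_⟩⟩
    have h2 := (h1 i).2
    obtain ⟨a, b, hb, rfl⟩ := IsFractionRing.div_surjective
      (A := Algebra.adjoin k (Set.range fun j => H j / H i)) x
    exact ⟨a, a.2, b, b.2, fun h => nonZeroDivisors.ne_zero hb (Subtype.ext h),
      div_eq_mul_inv _ _⟩
  have key : ∀ (C : Type) [CommRing C] [IsDomain C] [Algebra k C],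
      Pool.Agent.TH188.VQ.HasCharts k C → LocalRingsUniformizable C := by
    rintro C _ _ _ ⟨N, _, _, _, _, _, T, I, hT, hI, hM⟩ q _ R _ _ _
    exact Pool.Agent.Q83.ZQ.lu_of_charts (N := N) ⟨T, I, hT, hI, hM⟩ q R
  refine ⟨?_, ?_⟩
  · intro K _ _ E D C _ _ _ _ _ _ hE hD hC
    obtain ⟨S, hS, hSi⟩ := hC.integral
    exact key C (Pool.Agent.TH188.VQ.charts_fld p E D (fun i => (hE.surface i).1)
      (fun i => hmod _ (hE.surface i).2) hE.disjoint hE.generate hD.maps hD.vanish hD.power V C
      hC.injective hC.fractions S hS hSi)
  · intro A _ _ _ _ _ D hA hDp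
    refine key (constants D V) (Pool.Agent.TH188.VQ.charts_ring p ?_ ?_ D ?_ V (constants D V)
      fun f => Iff.rfl)
    · intro i
      rcases hA i with h | ⟨⟨ε⟩⟩
      · exact h.1
      · exact ε.trdeg_eq.trans (Pool.Agent.W558.trdeg_RF2 k)
    · intro i
      rcases hA i with h | ⟨⟨ε⟩⟩
      · exact hmod _ h.2
      · exact Pool.Agent.TH188.WP.hasModel_of_equiv ε.symm (Pool.Agent.W558.hasModel_RF2 k)
    · rcases hDp with h | ⟨μ, hμ, h⟩
      · exact Or.inl fun i a => h i a trivial
      · exact Or.inr ⟨μ, hμ, fun i a => h i a trivial⟩

end Pool.Agent.Results.MP_3029eb_ag.VectorFieldQuotientsLU
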